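import Pool.Agent.H76.GT.Ff
import Mathlib.FieldTheory.FinTrdeg

/-!
# H10 FF, Rat: places of function fields over algebraically closed fields are rational

`F` is a finite separable extension of `k(x)`, `k` algebraically closed. Residue fields: let `v y ≥ 0` and suppose that no
`y - c`, `c ∈ k`, has positive valuation. Then all nonzero polynomials in `y` (products of linear factors) have valuation
zero, `y` is transcendental over `k` and `F` is algebraic over `k(y)`; so a uniformiser is algebraic over a field on which
`v` is trivial, contradiction.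
-/

set_option autoImplicit false

namespace Pool.Agent.H10.FF

open Pool.Agent.H54.TT Pool.Agent.H76.GT Polynomial IntermediateField

variable {k F : Type} [Field k] [Field F] [Algebra k F]

theorem v_pow {v : F → ℤ} (hv : IsDV v) {x : F} (hx : x ≠ 0) (m : ℕ) : v (x ^ m) = m * v x := by
  induction m with
  | zero => rw [pow_zero, hv.one]; simp
  | succ m ih => rw [pow_succ, hv.mul _ _ (pow_ne_zero _ hx) hx, ih]; push_cast; ring

theorem v_multiset_prod {v : F → ℤ} (hv : IsDV v) (s : Multiset F) (h : ∀ x ∈ s, x ≠ 0 ∧ v x = 0) :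
    s.prod ≠ 0 ∧ v s.prod = 0 := by
  induction s using Multiset.induction_on with
  | empty => exact ⟨by rw [Multiset.prod_zero]; exact one_ne_zero, by rw [Multiset.prod_zero, hv.one]⟩
  | cons a s ih =>
    obtain ⟨h1, h2⟩ := ih fun x hx => h x (Multiset.mem_cons_of_mem hx)
    obtain ⟨h3, h4⟩ := h a (Multiset.mem_cons_self a s)
    rw [Multiset.prod_cons]
    exact ⟨mul_ne_zero h3 h1, by rw [hv.mul _ _ h3 h1, h2, h4, add_zero]⟩

/-- a discrete valuation is not trivial on a subfield over which the field is algebraic -/
theorem not_trivial {v : F → ℤ} (hv : IsDV v) (K : IntermediateField k F) [Algebra.IsAlgebraic K F]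
    (hK : ∀ z : K, (z : F) ≠ 0 → v z = 0) : False := by
  obtain ⟨p, hp0, hp⟩ := hv.unif
  have h1 : IsIntegral K p := Algebra.IsIntegral.isIntegral p
  have h2 : (minpoly K p).coeff 0 ≠ 0 := minpoly.coeff_zero_ne_zero h1 hp0
  have h3 : aeval p (minpoly K p) = 0 := minpoly.aeval K p
  rw [aeval_eq_sum_range, Finset.sum_range_succ'] at h3
  rw [pow_zero] at h3
  have h4 : (((minpoly K p).coeff 0 : K) : F) = - ∑ i ∈ Finset.range (minpoly K p).natDegree,
      (minpoly K p).coeff (i + 1) • p ^ (i + 1) := by
    have e : ((minpoly K p).coeff 0 • (1 : F)) = (((minpoly K p).coeff 0 : K) : F) := by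
      rw [Algebra.smul_def, mul_one]
      rfl
    rw [← e]
    exact eq_neg_of_add_eq_zero_right h3
  have h5 : Ge v 1 ((((minpoly K p).coeff 0 : K) : F)) := by
    rw [h4]
    refine ge_neg hv ?_
    have key : ∀ s : Finset ℕ, Ge v 1 (∑ i ∈ s, (minpoly K p).coeff (i + 1) • p ^ (i + 1)) := by
      intro s
      induction s using Finset.induction_on with
      | empty => rw [Finset.sum_empty]; exact ge_zero hv 1
      | insert a s ha ih =>
        rw [Finset.sum_insert ha]
        refine ge_add hv ?_ ih
        have e : (minpoly K p).coeff (a + 1) • p ^ (a + 1) = (((minpoly K p).coeff (a + 1) : K) : F) * p ^ (a + 1) := by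
          rw [Algebra.smul_def]
          rfl
        rw [e]
        have h6 : Ge v (0 + 1) ((((minpoly K p).coeff (a + 1) : K) : F) * p ^ (a + 1)) := by
          refine ge_mul hv ?_ ?_
          · intro hz
            rw [hK _ hz]
          · intro _
            rw [v_pow hv hp0, hp]
            push_cast
            linarith [Int.natCast_nonneg a]
        rwa [zero_add] at h6
    exact key _
  have h6 : (((minpoly K p).coeff 0 : K) : F) ≠ 0 := fun h => h2 (Subtype.ext h)
  have h7 := h5 h6
  rw [hK _ h6] at h7
  omega

theorem exists_const [IsAlgClosed k] {v : F → ℤ} (hv : IsDV v) (hk : ∀ c : k, c ≠ 0 → v (algebraMap k F c) = 0)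
    (halg : ∀ y : F, Transcendental k y → Algebra.IsAlgebraic (adjoin k {y}) F) (y : F) (hy : Ge v 0 y) :
    ∃ c : k, Ge v 1 (y - algebraMap k F c) := by
  by_contra hcon
  push Not at hcon
  -- all differences have valuation zero
  have h1 : ∀ c : k, y - algebraMap k F c ≠ 0 ∧ v (y - algebraMap k F c) = 0 := by
    intro c
    have h2 := hcon c
    unfold Ge at h2
    push Not at h2
    obtain ⟨h3, h4⟩ := h2
    refine ⟨h3, ?_⟩
    have h5 : Ge v 0 (y - algebraMap k F c) := by
      rw [sub_eq_add_neg]
      refine ge_add hv hy (ge_neg hv ?_)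
      intro hc
      rw [hk c (fun h => hc (by rw [h, map_zero]))]
    have := h5 h3
    omega
  -- all polynomials in `y` have valuation zero
  have h2 : ∀ p : k[X], p ≠ 0 → aeval y p ≠ 0 ∧ v (aeval y p) = 0 := by
    intro p hp
    have h3 := (IsAlgClosed.splits p).eq_prod_roots
    have h4 : aeval y p = algebraMap k F p.leadingCoeff * (p.roots.map fun a => y - algebraMap k F a).prod := by
      conv_lhs => rw [h3]
      rw [map_mul, aeval_C, map_multiset_prod, Multiset.map_map]
      congr 3
      funext a
      simp
    have h5 := v_multiset_prod hv (p.roots.map fun a => y - algebraMap k F a) (by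
      intro x hx
      obtain ⟨a, -, rfl⟩ := Multiset.mem_map.1 hx
      exact h1 a)
    have h6 : algebraMap k F p.leadingCoeff ≠ 0 := by
      rw [_root_.map_ne_zero]
      exact leadingCoeff_ne_zero.2 hp
    rw [h4]
    refine ⟨mul_ne_zero h6 h5.1, ?_⟩
    rw [hv.mul _ _ h6 h5.1, h5.2, hk _ (leadingCoeff_ne_zero.2 hp), add_zero]
  have htr : Transcendental k y := by
    rw [transcendental_iff]
    intro p hp
    by_contra hp0
    exact (h2 p hp0).1 hp
  have := halg y htr
  refine not_trivial hv (adjoin k {y}) ?_
  rintro ⟨z, hz⟩ hz0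
  obtain ⟨r, s, rfl⟩ := (mem_adjoin_simple_iff k _).1 hz
  have hr : r ≠ 0 := by
    rintro rfl
    exact hz0 (by simp)
  have hs : s ≠ 0 := by
    rintro rfl
    exact hz0 (by simp)
  show v (aeval y r / aeval y s) = 0
  rw [div_eq_mul_inv, hv.mul _ _ (h2 r hr).1 (inv_ne_zero (h2 s hs).1), hv.inv (h2 s hs).1, (h2 r hr).2, (h2 s hs).2]
  rfl

/-- places of function fields over algebraically closed fields: `PlaceSys` and `Rat` -/
theorem exists_places_rat (k F : Type) [Field k] [IsAlgClosed k] [Field F] [Algebra k F] (x : F)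
    (hx : Transcendental k x) (hfin : FiniteDimensional (adjoin k {x}) F)
    (hsep : Algebra.IsSeparable (adjoin k {x}) F) :
    ∃ (ι : Type) (v : ι → F → ℤ), PlaceSys F ι v ∧
      (∀ i (c : k), c ≠ 0 → v i (algebraMap k F c) = 0) ∧
      (∀ i (y : F), Ge (v i) 0 y → ∃ c : k, Ge (v i) 1 (y - algebraMap k F c)) ∧
      ∀ y : F, (∀ i, Ge (v i) 0 y) → ∃ c : k, algebraMap k F c = y := by
  obtain ⟨ι, v, h, hkap⟩ := exists_places k F x hx hfin hsep
  have hconst : ∀ i (c : k), c ≠ 0 → v i (algebraMap k F c) = 0 := by
    intro i c hc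
    have hc' : algebraMap k F c ≠ 0 := by
      rw [_root_.map_ne_zero]
      exact hc
    refine h.const _ hc' (fun j => ?_) i
    exact (hkap _).2 (isIntegral_algebraMap) j hc'
  have htr1 : Algebra.trdeg k F = 1 := by
    have h3 : IsTranscendenceBasis k (fun _ : Unit => x) := by
      rw [isTranscendenceBasis_iff_algebraicIndependent_isAlgebraic]
      refine ⟨algebraicIndependent_unique_type_iff.2 hx, ?_⟩
      rw [Set.range_const]
      have h4 : Algebra.IsAlgebraic (adjoin k {x}) F := inferInstance
      rw [isAlgebraic_adjoin_iff_top] at h4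
      exact h4
    rw [← h3.cardinalMk_eq_trdeg]
    simp
  refine ⟨ι, v, h, hconst, ?_, ?_⟩
  · intro i y hy
    refine exists_const (h.dv i) (hconst i) ?_ y hy
    intro z hz
    have h1 : AlgebraicIndependent k (fun _ : Unit => z) := algebraicIndependent_unique_type_iff.2 hz
    have h2 : IsTranscendenceBasis k (fun _ : Unit => z) := by
      refine h1.isTranscendenceBasis_of_trdeg_le_of_finite ?_
      rw [htr1]
      simp
    rw [isTranscendenceBasis_iff_algebraicIndependent_isAlgebraic] at h2
    have h3 := h2.2
    rw [Set.range_const] at h3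
    exact isAlgebraic_adjoin_iff_top.2 h3
  · intro y hy
    have h1 : IsIntegral k y := (hkap y).1 hy
    exact minpoly.mem_range_of_degree_eq_one k y (IsAlgClosed.degree_eq_one_of_irreducible k (minpoly.irreducible h1))

end Pool.Agent.H10.FF
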